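import Pool.Agent.Run7.h420.TM.Stm

/-!
Piece TWIST of project TM (helper420).
-/

set_option autoImplicit false

namespace Pool.Agent.Run7.h420.TM

open MeasureTheory Filter Topology Set

theorem t_TWIST : S_TWIST := by
  intro G X Y _ _ _ _ _ _ _ μ f X0 hS K _ w A δ hst hA hw
  refine ⟨fun x => (A x).out⁻¹ • f x, ?_, ?_, ?_⟩
  · intro S hSm
    have h1 : (fun x => (A x).out⁻¹ • f x) ⁻¹' S =
        ⋃ q : G ⧸ K, {x | A x = q} ∩ {x | q.out⁻¹ • f x ∈ S} := by
      ext x
      simp only [mem_preimage, mem_iUnion, mem_inter_iff, mem_ofPred_eq]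
      constructor
      · intro h
        exact ⟨A x, rfl, h⟩
      · rintro ⟨q, rfl, h⟩
        exact h
    rw [h1]
    have hcount : Countable (G ⧸ K) := Quotient.countable
    refine MeasurableSet.iUnion fun q => (hA q).inter ?_
    exact ((hS.smulY q.out⁻¹).comp hS.fmeas) hSm
  · intro x
    exact ⟨(A x).out, smul_inv_smul _ _⟩
  · intro g d hd
    filter_upwards [hst, hw g] with x hx hx2
    have h1 : w g x = (((A (g • x)).out * d * ((A x).out)⁻¹ : G) : G ⧸ K) := by
      rw [hx2, QuotientGroup.mk_mul, QuotientGroup.mk_mul, QuotientGroup.mk_inv, hd,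
        QuotientGroup.out_eq', QuotientGroup.out_eq']
    have h2 := (hx.2 g _).1 h1
    show (A (g • x)).out⁻¹ • f (g • x) = d • (A x).out⁻¹ • f x
    rw [h2, mul_smul, mul_smul, inv_smul_smul]

end Pool.Agent.Run7.h420.TM
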